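import Mathlib
import Pool.Agent.Helper62_Omega.Defs
import Pool.Agent.Helper62_Omega.Main

/-!
If `S_1(B_Ω, B_Ω)` or `S_fin(B_Ω, B_Ω)` is hereditary for sets of reals, then the Baire space is a
union of fewer than continuum many meager sets, and the continuum hypothesis fails. So neither
property is provably hereditary.
-/

set_option autoImplicit false

namespace Pool.Agent.Results.MP_c563c8_gt.NotHereditary

open Pool.Agent.Helper62_Omega

/-- The set of reals `X` (with the subspace topology) has the property `S_1(B_Ω, B_Ω)`. -/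
def PropS1 (X : Set ℝ) : Prop := S1 (BorelOmegaCovers X) (BorelOmegaCovers X)

/-- The set of reals `X` (with the subspace topology) has the property `S_fin(B_Ω, B_Ω)`. -/
def PropSfin (X : Set ℝ) : Prop := Sfin (BorelOmegaCovers X) (BorelOmegaCovers X)

/-- A property of sets of reals is hereditary if it passes to all subsets. -/
def Hereditary (Q : Set ℝ → Prop) : Prop := ∀ X Y : Set ℝ, Y ⊆ X → Q X → Q Y

/-- If one of the two properties is hereditary (or only if every subset of a set of reals with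
`S_1(B_Ω, B_Ω)` has `S_fin(B_Ω, B_Ω)`), then the Baire space `ℕ → ℕ` is the union of fewer than
continuum many meager sets, and `ℵ₁ < 2^ℵ₀`. -/
theorem result
    (h : Hereditary PropS1 ∨ Hereditary PropSfin ∨
      ∀ X Y : Set ℝ, Y ⊆ X → PropS1 X → PropSfin Y) :
    (∃ 𝒩 : Set (Set (ℕ → ℕ)), Cardinal.mk 𝒩 < Cardinal.continuum ∧ (∀ N ∈ 𝒩, IsMeagre N) ∧
      ⋃₀ 𝒩 = Set.univ) ∧
    Cardinal.aleph.{0} 1 < Cardinal.continuum.{0} := by
  have h' : ∀ X Y : Set ℝ, Y ⊆ X → PropS1 X → PropSfin Y := by
    rcases h with h | h | h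
    · exact fun X Y hXY hX => Sfin_of_S1 (h X Y hXY hX)
    · exact fun X Y hXY hX => h X Y hXY (Sfin_of_S1 hX)
    · exact h
  have hcov : ¬ CovM := by
    intro hc
    obtain ⟨X, Y, hYX, hX, hY⟩ := main hc
    exact hY (h' X Y hYX hX)
  unfold CovM at hcov
  push Not at hcov
  obtain ⟨𝒩, h1, h2, h3⟩ := hcov
  exact ⟨⟨𝒩, h1, h2, h3⟩, lt_of_le_of_lt (aleph_one_le_of_cover h2 h3) h1⟩

end Pool.Agent.Results.MP_c563c8_gt.NotHereditary
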